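import Pool.Agent.H27.CV.Comb

/-!
# The trivial bound of the twisted form
-/

set_option autoImplicit false

namespace Pool.Agent.H27.CV

open Finset Pool.Agent.H37.CV Pool.Agent.H49.CV

variable {α : Type} {N : α → ℝ}

open scoped Classical in
theorem gg_le (hN : ∀ P, 2 ≤ N P) (R₁ R₂ S T : Finset α) :
    gg N R₁ R₂ S T ≤ nS N S * nS N T := by
  unfold gg
  have h1 : nS N (S ∩ R₁) * nS N ((S ∩ T) \ (R₁ ∪ R₂)) ≤ nS N S := by
    have hd : Disjoint (S ∩ R₁) ((S ∩ T) \ (R₁ ∪ R₂)) := by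
      rw [disjoint_left]
      intro x hx hx2
      rw [mem_inter] at hx
      rw [mem_sdiff, mem_union] at hx2
      exact hx2.2 (Or.inl hx.2)
    have h2 : nS N (S ∩ R₁) * nS N ((S ∩ T) \ (R₁ ∪ R₂)) =
        nS N ((S ∩ R₁) ∪ ((S ∩ T) \ (R₁ ∪ R₂))) := (prod_union hd).symm
    rw [h2]
    exact nS_mono hN (union_subset inter_subset_left (sdiff_subset.trans inter_subset_left))
  have h2 : nS N (T ∩ R₂) ≤ nS N T := nS_mono hN inter_subset_left
  calc nS N (S ∩ R₁) * nS N (T ∩ R₂) * nS N ((S ∩ T) \ (R₁ ∪ R₂)) =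
      (nS N (S ∩ R₁) * nS N ((S ∩ T) \ (R₁ ∪ R₂))) * nS N (T ∩ R₂) := by ring
    _ ≤ nS N S * nS N T := mul_le_mul h1 h2 (nS_pos hN _).le (nS_pos hN _).le

open scoped Classical in
theorem gg_ge (hN : ∀ P, 2 ≤ N P) (R₁ R₂ S T : Finset α) : 1 ≤ gg N R₁ R₂ S T := by
  unfold gg
  have h1 := nS_ge hN (S ∩ R₁)
  have h2 := nS_ge hN (T ∩ R₂)
  have h3 := nS_ge hN ((S ∩ T) \ (R₁ ∪ R₂))
  exact one_le_mul_of_one_le_of_one_le (one_le_mul_of_one_le_of_one_le h1 h2) h3

open scoped Classical in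
theorem one_sum (hN : ∀ P, 2 ≤ N P) {A R E : Finset α} {M : ℝ} (hE : Disjoint E R) :
    ∑ S ∈ (DS N A M).filter (fun S => E ⊆ S), (1 : ℝ) * (nS N (S ∩ R) / nS N S) ≤
      2 ^ R.card * ((nS N E)⁻¹ * ∑ S ∈ DS N A M, (nS N S)⁻¹) := by
  have h1 : ∀ S ∈ (DS N A M).filter (fun S => E ⊆ S), (1 : ℝ) * (nS N (S ∩ R) / nS N S) =
      (nS N E)⁻¹ * (nS N (S \ (R ∪ E)))⁻¹ := by
    intro S hS
    have hES := (mem_filter.1 hS).2
    have h2 : nS N (S ∩ R) * (nS N E * nS N (S \ (R ∪ E))) = nS N S := by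
      have h3 : nS N E * nS N (S \ (R ∪ E)) = nS N (S \ R) := by
        have h4 : E ∪ S \ (R ∪ E) = S \ R := by
          ext x
          rw [mem_union, mem_sdiff, mem_sdiff, mem_union]
          constructor
          · rintro (hx | hx)
            · exact ⟨hES hx, disjoint_left.1 hE hx⟩
            · exact ⟨hx.1, fun h => hx.2 (Or.inl h)⟩
          · rintro ⟨hx, hy⟩
            by_cases hz : x ∈ E
            · exact Or.inl hz
            · exact Or.inr ⟨hx, fun h => h.elim hy hz⟩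
        rw [← h4]
        refine (prod_union ?_).symm
        rw [disjoint_left]
        intro x hx hx2
        rw [mem_sdiff, mem_union] at hx2
        exact hx2.2 (Or.inr hx)
      rw [h3]
      have h5 : S ∩ R ∪ S \ R = S := by
        rw [union_comm, sdiff_union_inter]
      conv_rhs => rw [← h5]
      refine (prod_union ?_).symm
      rw [disjoint_left]
      intro x hx hx2
      exact (mem_sdiff.1 hx2).2 (mem_inter.1 hx).2
    have h6 := nS_pos hN (S ∩ R)
    have h7 := nS_pos hN E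
    have h8 := nS_pos hN (S \ (R ∪ E))
    rw [← h2]
    field_simp
  rw [sum_congr rfl h1]
  have hinj : Set.InjOn (fun S : Finset α => (S ∩ R, S \ (R ∪ E)))
      ((DS N A M).filter (fun S => E ⊆ S) : Finset (Finset α)) := by
    intro S hS T hT h
    rw [mem_coe, mem_filter] at hS hT
    simp only [Prod.mk.injEq] at h
    have h2 : ∀ X : Finset α, E ⊆ X → X = (X ∩ R) ∪ E ∪ (X \ (R ∪ E)) := by
      intro X hX
      ext x
      simp only [mem_union, mem_inter, mem_sdiff]
      constructor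
      · intro hx
        by_cases h3 : x ∈ R
        · exact Or.inl (Or.inl ⟨hx, h3⟩)
        · by_cases h4 : x ∈ E
          · exact Or.inl (Or.inr h4)
          · exact Or.inr ⟨hx, fun h => h.elim h3 h4⟩
      · rintro ((h3 | h3) | h3)
        · exact h3.1
        · exact hX h3
        · exact h3.1
    rw [h2 S hS.2, h2 T hT.2, h.1, h.2]
  calc ∑ S ∈ (DS N A M).filter (fun S => E ⊆ S), (nS N E)⁻¹ * (nS N (S \ (R ∪ E)))⁻¹ =
      ∑ p ∈ ((DS N A M).filter (fun S => E ⊆ S)).image (fun S => (S ∩ R, S \ (R ∪ E))),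
        (nS N E)⁻¹ * (nS N p.2)⁻¹ := by rw [sum_image hinj]
    _ ≤ ∑ p ∈ R.powerset ×ˢ DS N A M, (nS N E)⁻¹ * (nS N p.2)⁻¹ := by
        refine sum_le_sum_of_subset_of_nonneg ?_ fun p _ _ => ?_
        · intro p hp
          obtain ⟨S, hS, rfl⟩ := mem_image.1 hp
          rw [mem_product, mem_powerset]
          exact ⟨inter_subset_right, DS_down hN (mem_filter.1 hS).1 sdiff_subset⟩
        · have := nS_pos hN E
          have := nS_pos hN p.2
          positivity
    _ = _ := by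
        rw [sum_product]
        simp only
        rw [sum_const, card_powerset, nsmul_eq_mul, ← mul_sum]
        push_cast
        rfl

open scoped Classical in
theorem pf_CB : T_CB := by
  intro α N A R₁ R₂ M hN hM hd
  refine ⟨fun S hS T hT => ⟨gg_ge hN _ _ _ _, ?_⟩, ?_⟩
  · have h1 := gg_le hN R₁ R₂ S T
    have h2 := nS_pos hN S
    have h3 := nS_pos hN T
    have h4 := gg_pos hN R₁ R₂ S T
    have h5 := (mem_DS.1 hS).2
    have h6 := (mem_DS.1 hT).2
    rw [div_le_iff₀ (by positivity)]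
    calc gg N R₁ R₂ S T ^ 2 ≤ (nS N S * nS N T) ^ 2 := pow_le_pow_left₀ h4.le h1 2
      _ = (nS N S * nS N T) * (nS N S * nS N T) := by ring
      _ ≤ M ^ 2 * (nS N S * nS N T) := by
          refine mul_le_mul_of_nonneg_right ?_ (by positivity)
          rw [sq]
          exact mul_le_mul h5 h6 h3.le (by linarith)
  · have h1 := bil hN A R₁ R₂ M (fun _ => 1) (fun _ => 1)
    simp only [one_mul] at h1
    rw [h1]
    obtain ⟨H, hH⟩ : ∃ H : ℝ, H = ∑ S ∈ DS N A M, (nS N S)⁻¹ := ⟨_, rfl⟩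
    have hH0 : 0 ≤ H := by
      rw [hH]
      exact sum_nonneg fun S _ => (inv_pos.2 (nS_pos hN S)).le
    have hHG : H ≤ GS N A M := by
      rw [hH]
      unfold GS
      exact sum_le_sum fun S _ => inv_anti₀ (fS_pos hN S) (fS_le_nS hN S)
    have h2 : ∀ E ∈ DE N A R₁ R₂ M, fS N E *
        (∑ S ∈ (DS N A M).filter (fun S => E ⊆ S), (nS N (S ∩ R₁) / nS N S)) *
        (∑ T ∈ (DS N A M).filter (fun T => E ⊆ T), (nS N (T ∩ R₂) / nS N T)) ≤
        2 ^ (R₁.card + R₂.card) * H ^ 2 * (nS N E)⁻¹ := by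
      intro E hE
      unfold DE at hE
      rw [mem_filter, disjoint_union_right] at hE
      have h3 := one_sum hN (A := A) (M := M) hE.2.1
      have h4 := one_sum hN (A := A) (M := M) hE.2.2
      simp only [one_mul] at h3 h4
      rw [← hH] at h3 h4
      have hf := fS_pos hN E
      have hn := nS_pos hN E
      have h5 : 0 ≤ ∑ T ∈ (DS N A M).filter (fun T => E ⊆ T), (nS N (T ∩ R₂) / nS N T) :=
        sum_nonneg fun T _ => (div_pos (nS_pos hN _) (nS_pos hN _)).le
      calc fS N E * (∑ S ∈ (DS N A M).filter (fun S => E ⊆ S), (nS N (S ∩ R₁) / nS N S)) *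
            (∑ T ∈ (DS N A M).filter (fun T => E ⊆ T), (nS N (T ∩ R₂) / nS N T)) ≤
          fS N E * (2 ^ R₁.card * ((nS N E)⁻¹ * H)) * (2 ^ R₂.card * ((nS N E)⁻¹ * H)) := by
            refine mul_le_mul (mul_le_mul_of_nonneg_left h3 hf.le) h4 h5 ?_
            positivity
        _ = 2 ^ (R₁.card + R₂.card) * H ^ 2 * (fS N E * (nS N E)⁻¹ * (nS N E)⁻¹) := by
            rw [pow_add]
            ring
        _ ≤ 2 ^ (R₁.card + R₂.card) * H ^ 2 * (1 * (nS N E)⁻¹) := by
            refine mul_le_mul_of_nonneg_left ?_ (by positivity)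
            refine mul_le_mul_of_nonneg_right ?_ (by positivity)
            rw [← div_eq_mul_inv, div_le_one hn]
            exact fS_le_nS hN E
        _ = _ := by rw [one_mul]
    calc _ ≤ ∑ E ∈ DE N A R₁ R₂ M, 2 ^ (R₁.card + R₂.card) * H ^ 2 * (nS N E)⁻¹ :=
          sum_le_sum h2
      _ ≤ ∑ E ∈ DS N A M, 2 ^ (R₁.card + R₂.card) * H ^ 2 * (nS N E)⁻¹ := by
          refine sum_le_sum_of_subset_of_nonneg (filter_subset _ _) fun E _ _ => ?_
          have := nS_pos hN E
          positivity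
      _ = 2 ^ (R₁.card + R₂.card) * H ^ 3 := by
          rw [← mul_sum, ← hH]
          ring
      _ ≤ _ := by
          refine mul_le_mul_of_nonneg_left ?_ (by positivity)
          exact pow_le_pow_left₀ hH0 hHG 3

end Pool.Agent.H27.CV
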