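import Pool.Agent.H27.CV.Comb2

/-!
# The main term of the quadratic form
-/

set_option autoImplicit false

namespace Pool.Agent.H27.CV

open Finset Pool.Agent.H37.CV Pool.Agent.H49.CV

variable {α : Type}

open scoped Classical in
theorem sg_empty {N : α → ℝ} {M : ℝ} {E : Finset α} :
    sg N ∅ M E = if nS N E ≤ M then 1 else 0 := by
  unfold sg
  rw [powerset_empty, filter_singleton]
  have h1 : nS N (∅ : Finset α) = 1 := prod_empty
  rw [h1, one_mul]
  split_ifs
  · rw [sum_singleton, card_empty, pow_zero]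
  · rw [sum_empty]

open scoped Classical in
theorem zz_empty (hCZ : T_CZ) {N : α → ℝ} (hN : ∀ P, 2 ≤ N P) {A E : Finset α} {M : ℝ}
    (hM : 1 ≤ M) (hE : E ⊆ A) :
    zz N A ∅ M E = (-1) ^ E.card / (fS N E * GS N A M) * if nS N E ≤ M then 1 else 0 := by
  rw [zz_eq hCZ hN hM (empty_subset _) hE (disjoint_empty_right _), sg_empty]

open scoped Classical in
theorem DE_empty (N : α → ℝ) (A : Finset α) (M : ℝ) : DE N A ∅ ∅ M = DS N A M := by
  unfold DE
  refine filter_true_of_mem fun E _ => ?_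
  rw [union_empty]
  exact disjoint_empty_right _

theorem neg_one_sq_pow (n : ℕ) : ((-1 : ℝ) ^ n) * (-1) ^ n = 1 := by
  rw [← mul_pow]
  norm_num

open scoped Classical in
/-- the contribution of `P` -/
theorem Qp_empty (hCZ : T_CZ) {N : α → ℝ} (hN : ∀ P, 2 ≤ N P) {A : Finset α} {M : ℝ}
    (hM : 1 ≤ M) (hG : 0 < GS N A M) {P : α} (hP : P ∈ A) :
    Qp N A ∅ ∅ M P = 2 / GS N A M ^ 2 * (1 + (N P - 1)⁻¹) *
      ∑ S ∈ (DS N A M).filter (fun S => P ∈ S), (fS N S)⁻¹ := by
  rw [← sum_insert_eq hN, mul_sum]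
  unfold Qp
  rw [DE_empty]
  symm
  rw [sum_filter]
  refine sum_congr rfl fun E hE => ?_
  have hEA := (mem_DS.1 hE).1
  have hEM := (mem_DS.1 hE).2
  have hc1 : cf (∅ : Finset α) P = -1 := if_neg (notMem_empty P)
  have hc2 : cg (∅ : Finset α) ∅ P = 2 := if_neg (by rw [union_empty]; exact notMem_empty P)
  rw [hc1, hc2]
  have hz := zz_empty hCZ hN hM hEA
  rw [if_pos hEM, mul_one] at hz
  by_cases h1 : P ∈ E
  · rw [zP_mem h1, if_neg fun h => h.1 h1]
    ring
  · have hi := zz_empty hCZ hN hM (insert_subset hP hEA)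
    rw [zP_insert, hz, hi]
    by_cases h2 : insert P E ∈ DS N A M
    · rw [if_pos ⟨h1, h2⟩, if_pos (mem_DS.1 h2).2, mul_one, card_insert_of_notMem h1,
        pow_succ (-1 : ℝ) E.card, fS_insert h1]
      have h3 := fS_pos hN E
      have h4 : 0 < N P - 1 := by linarith [hN P]
      obtain ⟨s, hs⟩ : ∃ s : ℝ, s = (-1) ^ E.card := ⟨_, rfl⟩
      have hs2 : s * s = 1 := by rw [hs]; exact neg_one_sq_pow _
      rw [← hs]
      have h5 : fS N E * (-1 * (s * -1 / ((N P - 1) * fS N E * GS N A M) *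
          (s / (fS N E * GS N A M))) + -1 * (s / (fS N E * GS N A M) *
          (s * -1 / ((N P - 1) * fS N E * GS N A M))) +
          2 * (s * -1 / ((N P - 1) * fS N E * GS N A M) *
          (s * -1 / ((N P - 1) * fS N E * GS N A M)))) =
          (s * s) * (2 / GS N A M ^ 2 * (1 + (N P - 1)⁻¹) * ((N P - 1) * fS N E)⁻¹) := by
        field_simp
        ring
      rw [h5, hs2, one_mul]
    · rw [if_neg fun h => h2 h.2, if_neg fun h => h2 (mem_DS.2 ⟨insert_subset hP hEA, h⟩)]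
      ring

open scoped Classical in
/-- the sets that contain `P` -/
theorem sum_mem_le {N : α → ℝ} (hN : ∀ P, 2 ≤ N P) {A : Finset α} {M : ℝ} {P : α} :
    ∑ S ∈ (DS N A M).filter (fun S => P ∈ S), (fS N S)⁻¹ ≤ (N P - 1)⁻¹ * GS N A M := by
  rw [← sum_insert_eq hN]
  unfold GS
  rw [mul_sum]
  refine (sum_le_sum (g := fun E => (N P - 1)⁻¹ * (fS N E)⁻¹) fun E hE => ?_).trans
    (sum_le_sum_of_subset_of_nonneg (filter_subset _ _) fun E _ _ => ?_)
  · rw [fS_insert (mem_filter.1 hE).2.1, mul_inv]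
  · have h3 := fS_pos hN E
    have h4 : 0 < N P - 1 := by linarith [hN P]
    positivity

open scoped Classical in
theorem pf_CM (hCX : T_CX) (hCZ : T_CZ) : T_CM := by
  intro α N A M hN hM
  have hG1 : 1 ≤ GS N A M := (hCX α N A M hN hM).2.1
  have hG : 0 < GS N A M := by linarith
  constructor
  · rw [form1 hN, DE_empty]
    have h1 : ∀ E ∈ DS N A M, fS N E * zz N A ∅ M E * zz N A ∅ M E =
        (GS N A M ^ 2)⁻¹ * (fS N E)⁻¹ := by
      intro E hE
      have hz := zz_empty hCZ hN hM (mem_DS.1 hE).1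
      rw [if_pos (mem_DS.1 hE).2, mul_one] at hz
      rw [hz]
      have h3 := fS_pos hN E
      have h4 : fS N E * ((-1) ^ E.card / (fS N E * GS N A M)) *
          ((-1) ^ E.card / (fS N E * GS N A M)) =
          ((-1) ^ E.card * (-1) ^ E.card) * ((GS N A M ^ 2)⁻¹ * (fS N E)⁻¹) := by
        field_simp
      rw [h4, neg_one_sq_pow, one_mul]
    rw [sum_congr rfl h1, ← mul_sum]
    have h2 : ∑ E ∈ DS N A M, (fS N E)⁻¹ = GS N A M := rfl
    rw [h2]
    field_simp
  · rw [form2 hN (disjoint_empty_left _)]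
    have h1 : ∀ P ∈ A, Real.log (N P) * Qp N A ∅ ∅ M P ≤
        2 / GS N A M ^ 2 * (∑ S ∈ DS N A M, (Real.log (N P) * if P ∈ S then 1 else 0) / fS N S) +
        2 / GS N A M * (Real.log (N P) / (N P - 1) ^ 2) := by
      intro P hP
      rw [Qp_empty hCZ hN hM hG hP]
      have h3 : ∑ S ∈ DS N A M, (Real.log (N P) * if P ∈ S then 1 else 0) / fS N S =
          Real.log (N P) * ∑ S ∈ (DS N A M).filter (fun S => P ∈ S), (fS N S)⁻¹ := by
        rw [sum_filter, mul_sum]
        refine sum_congr rfl fun S _ => ?_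
        split_ifs
        · rw [mul_one, div_eq_mul_inv]
        · rw [mul_zero, zero_div]
      rw [h3]
      obtain ⟨g, hg⟩ : ∃ g : ℝ, g = ∑ S ∈ (DS N A M).filter (fun S => P ∈ S), (fS N S)⁻¹ :=
        ⟨_, rfl⟩
      have hg1 : g ≤ (N P - 1)⁻¹ * GS N A M := by
        rw [hg]
        exact sum_mem_le hN
      rw [← hg]
      have h4 : 0 < N P - 1 := by linarith [hN P]
      have h5 : 0 ≤ Real.log (N P) := Real.log_nonneg (by linarith [hN P])
      have h6 : Real.log (N P) * (2 / GS N A M ^ 2 * (1 + (N P - 1)⁻¹) * g) =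
          2 / GS N A M ^ 2 * (Real.log (N P) * g) +
          (2 / GS N A M ^ 2 * (N P - 1)⁻¹ * Real.log (N P)) * g := by ring
      rw [h6]
      refine add_le_add le_rfl ?_
      calc (2 / GS N A M ^ 2 * (N P - 1)⁻¹ * Real.log (N P)) * g ≤
          (2 / GS N A M ^ 2 * (N P - 1)⁻¹ * Real.log (N P)) * ((N P - 1)⁻¹ * GS N A M) :=
            mul_le_mul_of_nonneg_left hg1 (by positivity)
        _ = 2 / GS N A M * (Real.log (N P) / (N P - 1) ^ 2) := by
            field_simp
    refine (sum_le_sum h1).trans (le_of_eq ?_)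
    rw [sum_add_distrib, ← mul_sum, ← mul_sum]
    congr 2
    rw [sum_comm]
    refine sum_congr rfl fun S hS => ?_
    rw [← sum_div, log_nS_ind hN (mem_DS.1 hS).1]

end Pool.Agent.H27.CV
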