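import Pool.Agent.H27.CV.Comb2

/-!
# The twisted quadratic form
-/

set_option autoImplicit false

namespace Pool.Agent.H27.CV

open Finset Pool.Agent.H37.CV Pool.Agent.H49.CV

variable {α : Type}

open scoped Classical in
/-- the sets in the short range -/
noncomputable def br (N : α → ℝ) (R : Finset α) (M : ℝ) (E : Finset α) : ℝ :=
  if nS N E ≤ M ∧ M < nS N R * nS N E then (fS N E)⁻¹ else 0

theorem br_nonneg {N : α → ℝ} (hN : ∀ P, 2 ≤ N P) (R : Finset α) (M : ℝ) (E : Finset α) :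
    0 ≤ br N R M E := by
  unfold br
  split_ifs
  · exact (inv_pos.2 (fS_pos hN E)).le
  · exact le_rfl

theorem br_le {N : α → ℝ} (hN : ∀ P, 2 ≤ N P) (R : Finset α) (M : ℝ) (E : Finset α) :
    br N R M E ≤ (fS N E)⁻¹ := by
  unfold br
  split_ifs
  · exact le_rfl
  · exact (inv_pos.2 (fS_pos hN E)).le

open scoped Classical in
theorem br_sum {N : α → ℝ} (hN : ∀ P, 2 ≤ N P) (A R : Finset α) (M : ℝ) (hM : 0 ≤ M) :
    ∑ E ∈ DS N A M, br N R M E = GS N A M - GS N A (M / nS N R) := by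
  have h1 : DS N A (M / nS N R) ⊆ DS N A M := by
    intro E hE
    rw [mem_DS] at hE ⊢
    refine ⟨hE.1, hE.2.trans (div_le_self hM (nS_ge hN R))⟩
  unfold GS
  rw [← sum_sdiff h1 (f := fun S => (fS N S)⁻¹), add_sub_cancel_right]
  unfold br
  rw [← sum_filter]
  refine sum_congr ?_ fun _ _ => rfl
  ext E
  rw [mem_filter, mem_sdiff, mem_DS, mem_DS]
  have h2 : nS N E ≤ M / nS N R ↔ nS N R * nS N E ≤ M := by
    rw [le_div_iff₀ (nS_pos hN R), mul_comm]
  rw [h2]
  constructor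
  · rintro ⟨⟨h3, h4⟩, _, h5⟩
    exact ⟨⟨h3, h4⟩, fun h => absurd h.2 (not_le.2 h5)⟩
  · rintro ⟨⟨h3, h4⟩, h5⟩
    exact ⟨⟨h3, h4⟩, h4, not_le.1 fun h => h5 ⟨h3, h⟩⟩

theorem alt_le (X : Finset (Finset α)) : |∑ n ∈ X, (-1 : ℝ) ^ n.card| ≤ X.card := by
  refine (abs_sum_le_sum_abs _ _).trans ?_
  rw [sum_congr rfl fun n _ => by rw [abs_pow, abs_neg, abs_one, one_pow], sum_const,
    nsmul_eq_mul, mul_one]

open scoped Classical in
theorem sg_le (N : α → ℝ) (R : Finset α) (M : ℝ) (E : Finset α) :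
    |sg N R M E| ≤ 2 ^ R.card := by
  unfold sg
  refine (alt_le _).trans ?_
  have h1 := card_le_card (filter_subset (fun n => nS N n * nS N E ≤ M) R.powerset)
  rw [card_powerset] at h1
  exact_mod_cast h1

open scoped Classical in
theorem sg_zero {N : α → ℝ} (hN : ∀ P, 2 ≤ N P) {R : Finset α} {M : ℝ} {E : Finset α}
    (hR : R.Nonempty) (h : nS N R * nS N E ≤ M) : sg N R M E = 0 := by
  unfold sg
  have h1 : R.powerset.filter (fun n => nS N n * nS N E ≤ M) = R.powerset := by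
    refine filter_true_of_mem fun n hn => ?_
    exact (mul_le_mul_of_nonneg_right (nS_mono hN (mem_powerset.1 hn)) (nS_pos hN E).le).trans h
  rw [h1]
  have h2 := sum_powerset_neg_one_pow_card_of_nonempty hR
  exact_mod_cast congrArg (fun z : ℤ => (z : ℝ)) h2

open scoped Classical in
theorem sg_zero' {N : α → ℝ} (hN : ∀ P, 2 ≤ N P) {R : Finset α} {M : ℝ} {E : Finset α}
    (h : M < nS N E) : sg N R M E = 0 := by
  unfold sg
  have h1 : R.powerset.filter (fun n => nS N n * nS N E ≤ M) = ∅ := by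
    refine filter_false_of_mem fun n _ => ?_
    rw [not_le]
    exact h.trans_le (le_mul_of_one_le_left (nS_pos hN E).le (nS_ge hN n))
  rw [h1, sum_empty]

open scoped Classical in
/-- the sums of (CZ) live in the short range -/
theorem zz_le (hCZ : T_CZ) {N : α → ℝ} (hN : ∀ P, 2 ≤ N P) {A R E : Finset α} {M : ℝ}
    (hM : 1 ≤ M) (hG : 0 < GS N A M) (hR : R ⊆ A) (hR0 : R.Nonempty) (hE : E ⊆ A)
    (hd : Disjoint E R) : |zz N A R M E| ≤ 2 ^ R.card / GS N A M * br N R M E := by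
  rw [zz_eq hCZ hN hM hR hE hd, abs_mul, abs_div, abs_pow, abs_neg, abs_one, one_pow,
    abs_of_pos (mul_pos (fS_pos hN E) hG)]
  unfold br
  split_ifs with h
  · calc 1 / (fS N E * GS N A M) * |sg N R M E| ≤ 1 / (fS N E * GS N A M) * 2 ^ R.card :=
          mul_le_mul_of_nonneg_left (sg_le N R M E)
            (div_pos one_pos (mul_pos (fS_pos hN E) hG)).le
      _ = _ := by
          have := fS_pos hN E
          field_simp
  · have h1 : sg N R M E = 0 := by
      by_cases h2 : nS N E ≤ M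
      · exact sg_zero hN hR0 (not_lt.1 fun h3 => h ⟨h2, h3⟩)
      · exact sg_zero' hN (not_le.1 h2)
    rw [h1, abs_zero, mul_zero, mul_zero]

open scoped Classical in
theorem zz_le' (hCZ : T_CZ) {N : α → ℝ} (hN : ∀ P, 2 ≤ N P) {A R E : Finset α} {M : ℝ}
    (hM : 1 ≤ M) (hG : 0 < GS N A M) (hR : R ⊆ A) (hR0 : R.Nonempty) (hE : E ⊆ A)
    (hd : Disjoint E R) : |zz N A R M E| ≤ 2 ^ R.card / GS N A M * (fS N E)⁻¹ :=
  (zz_le hCZ hN hM hG hR hR0 hE hd).trans
    (mul_le_mul_of_nonneg_left (br_le hN R M E) (by positivity))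

open scoped Classical in
theorem zP_le (hCZ : T_CZ) {N : α → ℝ} (hN : ∀ P, 2 ≤ N P) {A R E : Finset α} {M : ℝ}
    (hM : 1 ≤ M) (hG : 0 < GS N A M) (hR : R ⊆ A) (hE : E ⊆ A)
    (hd : Disjoint E R) {P : α} (hP : P ∈ R) :
    |zP N A R M E P| ≤ 2 * (2 ^ R.card / GS N A M * (fS N E)⁻¹) := by
  rw [zP_eq hCZ hN hM hR hE hd hP, abs_mul, abs_mul, abs_div, abs_pow, abs_neg, abs_one, one_pow,
    abs_of_pos (mul_pos (fS_pos hN E) hG)]
  have h1 : 0 < N P - 1 := by linarith [hN P]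
  have h2 : 0 < N P := by linarith [hN P]
  have h3 : |N P / (N P - 1)| ≤ 2 := by
    rw [abs_of_pos (div_pos h2 h1), div_le_iff₀ h1]
    linarith [hN P]
  have h4 : |∑ n ∈ R.powerset.filter (fun n => P ∈ n ∧ nS N n * nS N E ≤ M),
      (-1 : ℝ) ^ n.card| ≤ 2 ^ R.card := by
    refine (alt_le _).trans ?_
    have h5 := card_le_card (filter_subset (fun n => P ∈ n ∧ nS N n * nS N E ≤ M) R.powerset)
    rw [card_powerset] at h5
    exact_mod_cast h5
  have h6 : 0 < 1 / (fS N E * GS N A M) := div_pos one_pos (mul_pos (fS_pos hN E) hG)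
  calc 1 / (fS N E * GS N A M) * |N P / (N P - 1)| *
        |∑ n ∈ R.powerset.filter (fun n => P ∈ n ∧ nS N n * nS N E ≤ M), (-1 : ℝ) ^ n.card| ≤
      1 / (fS N E * GS N A M) * 2 * 2 ^ R.card :=
        mul_le_mul (mul_le_mul_of_nonneg_left h3 h6.le) h4 (abs_nonneg _) (by positivity)
    _ = _ := by
        have := fS_pos hN E
        field_simp

open scoped Classical in
/-- sums over the sets `insert P E` -/
theorem br_insert {N : α → ℝ} (hN : ∀ P, 2 ≤ N P) (A R : Finset α) (M : ℝ) {P : α} (hP : P ∈ A) :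
    ∑ E ∈ (DS N A M).filter (fun E => P ∉ E), br N R M (insert P E) ≤
      ∑ S ∈ DS N A M, br N R M S * if P ∈ S then 1 else 0 := by
  have h1 := sum_insert_eq hN (A := A) (M := M) (P := P) (br N R M)
  have h2 : ∑ E ∈ (DS N A M).filter (fun E => P ∉ E ∧ insert P E ∈ DS N A M),
      br N R M (insert P E) = ∑ E ∈ (DS N A M).filter (fun E => P ∉ E), br N R M (insert P E) := by
    refine sum_subset (fun E hE => ?_) fun E hE hE2 => ?_
    · rw [mem_filter] at hE ⊢
      exact ⟨hE.1, hE.2.1⟩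
    · rw [mem_filter] at hE
      have h3 : insert P E ∉ DS N A M := fun h => hE2 (mem_filter.2 ⟨hE.1, hE.2, h⟩)
      unfold br
      refine if_neg fun h => h3 (mem_DS.2 ⟨insert_subset hP (mem_DS.1 hE.1).1, h.1⟩)
  rw [← h2, h1, sum_filter]
  refine le_of_eq (sum_congr rfl fun S _ => ?_)
  split_ifs
  · rw [mul_one]
  · rw [mul_zero]

open scoped Classical in
/-- the contribution of a prime outside `R₁ ∪ R₂` -/
theorem Qp_out (hCZ : T_CZ) {N : α → ℝ} (hN : ∀ P, 2 ≤ N P) {A R₁ R₂ : Finset α} {M : ℝ}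
    (hM : 1 ≤ M) (hG : 0 < GS N A M) (hR₁ : R₁ ⊆ A) (hR₂ : R₂ ⊆ A) (h₁ : R₁.Nonempty)
    (h₂ : R₂.Nonempty) {P : α} (hP : P ∈ A) (hP2 : P ∉ R₁ ∪ R₂) :
    |Qp N A R₁ R₂ M P| ≤ 2 ^ (R₁.card + R₂.card) / GS N A M ^ 2 * (2 *
      (∑ S ∈ DS N A M, br N R₁ M S * (if P ∈ S then 1 else 0) +
        ∑ S ∈ DS N A M, br N R₂ M S * if P ∈ S then 1 else 0)) := by
  have hP1 : P ∉ R₁ := fun h => hP2 (mem_union_left _ h)
  have hP3 : P ∉ R₂ := fun h => hP2 (mem_union_right _ h)
  have hc1 : cf R₁ P = -1 := if_neg hP1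
  have hc2 : cf R₂ P = -1 := if_neg hP3
  have hc3 : cg R₁ R₂ P = 2 := if_neg hP2
  obtain ⟨c, hc⟩ : ∃ c : ℝ, c = 2 ^ (R₁.card + R₂.card) / GS N A M ^ 2 := ⟨_, rfl⟩
  have hc0 : 0 ≤ c := by rw [hc]; positivity
  have h1 : ∀ E ∈ DS N A M, |if Disjoint E (R₁ ∪ R₂) then fS N E *
      (cf R₁ P * (zP N A R₁ M E P * zz N A R₂ M E) +
        cf R₂ P * (zz N A R₁ M E * zP N A R₂ M E P) +
        cg R₁ R₂ P * (zP N A R₁ M E P * zP N A R₂ M E P)) else 0| ≤
      if P ∉ E then c * (2 * (br N R₁ M (insert P E) + br N R₂ M (insert P E))) else 0 := by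
    intro E hE
    have hEA := (mem_DS.1 hE).1
    have hb1 := br_nonneg hN R₁ M (insert P E)
    have hb2 := br_nonneg hN R₂ M (insert P E)
    by_cases hd : Disjoint E (R₁ ∪ R₂)
    · rw [if_pos hd, hc1, hc2, hc3]
      by_cases hPE : P ∈ E
      · rw [zP_mem hPE, zP_mem hPE, if_neg (not_not.2 hPE)]
        have : fS N E * (-1 * (zz N A R₁ M E * zz N A R₂ M E) + -1 * (zz N A R₁ M E * zz N A R₂ M E) +
          2 * (zz N A R₁ M E * zz N A R₂ M E)) = 0 := by ring
        rw [this, abs_zero]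
      · rw [if_pos hPE]
        rw [disjoint_union_right] at hd
        have hi1 : Disjoint (insert P E) R₁ := disjoint_insert_left.2 ⟨hP1, hd.1⟩
        have hi2 : Disjoint (insert P E) R₂ := disjoint_insert_left.2 ⟨hP3, hd.2⟩
        have hiA : insert P E ⊆ A := insert_subset hP hEA
        have a1 := zz_le' hCZ hN hM hG hR₁ h₁ hEA hd.1
        have a2 := zz_le' hCZ hN hM hG hR₂ h₂ hEA hd.2
        have b1 := zz_le hCZ hN hM hG hR₁ h₁ hiA hi1
        have b2 := zz_le hCZ hN hM hG hR₂ h₂ hiA hi2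
        have c1 := zz_le' hCZ hN hM hG hR₁ h₁ hiA hi1
        have c2 := zz_le' hCZ hN hM hG hR₂ h₂ hiA hi2
        rw [zP_insert, zP_insert]
        obtain ⟨x1, hx1⟩ : ∃ x, x = zz N A R₁ M E := ⟨_, rfl⟩
        obtain ⟨x2, hx2⟩ : ∃ x, x = zz N A R₂ M E := ⟨_, rfl⟩
        obtain ⟨y1, hy1⟩ : ∃ x, x = zz N A R₁ M (insert P E) := ⟨_, rfl⟩
        obtain ⟨y2, hy2⟩ : ∃ x, x = zz N A R₂ M (insert P E) := ⟨_, rfl⟩
        rw [← hx1] at a1 ⊢
        rw [← hx2] at a2 ⊢
        rw [← hy1] at b1 c1 ⊢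
        rw [← hy2] at b2 c2 ⊢
        have hf := fS_pos hN E
        have hfi : (fS N (insert P E))⁻¹ ≤ (fS N E)⁻¹ := by
          rw [fS_insert hPE]
          exact inv_anti₀ hf (le_mul_of_one_le_left hf.le (by linarith [hN P]))
        have k1 : (0 : ℝ) ≤ 2 ^ R₁.card / GS N A M := by positivity
        have k2 : (0 : ℝ) ≤ 2 ^ R₂.card / GS N A M := by positivity
        have d1 : |x1 - y1| ≤ 2 * (2 ^ R₁.card / GS N A M * (fS N E)⁻¹) := by
          have e1 := mul_le_mul_of_nonneg_left hfi k1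
          have e2 := abs_sub x1 y1
          linarith
        have d2 : |x2 - y2| ≤ 2 * (2 ^ R₂.card / GS N A M * (fS N E)⁻¹) := by
          have e1 := mul_le_mul_of_nonneg_left hfi k2
          have e2 := abs_sub x2 y2
          linarith
        have e : fS N E * (-1 * (y1 * x2) + -1 * (x1 * y2) + 2 * (y1 * y2)) =
            -(fS N E * (y1 * (x2 - y2) + (x1 - y1) * y2)) := by ring
        rw [e, abs_neg, abs_mul, abs_of_pos hf]
        calc fS N E * |y1 * (x2 - y2) + (x1 - y1) * y2| ≤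
            fS N E * (|y1| * |x2 - y2| + |x1 - y1| * |y2|) := by
              refine mul_le_mul_of_nonneg_left ?_ hf.le
              rw [← abs_mul, ← abs_mul]
              exact abs_add_le _ _
          _ ≤ fS N E * ((2 ^ R₁.card / GS N A M * br N R₁ M (insert P E)) *
                (2 * (2 ^ R₂.card / GS N A M * (fS N E)⁻¹)) +
              (2 * (2 ^ R₁.card / GS N A M * (fS N E)⁻¹)) *
                (2 ^ R₂.card / GS N A M * br N R₂ M (insert P E))) := by
              refine mul_le_mul_of_nonneg_left (add_le_add ?_ ?_) hf.le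
              · exact mul_le_mul b1 d2 (abs_nonneg _) (by positivity)
              · exact mul_le_mul d1 b2 (abs_nonneg _) (by positivity)
          _ = _ := by
              rw [hc, pow_add]
              field_simp
    · rw [if_neg hd, abs_zero]
      by_cases hPE : P ∈ E
      · rw [if_neg (not_not.2 hPE)]
      · rw [if_pos hPE]
        positivity
  have h2 : Qp N A R₁ R₂ M P = ∑ E ∈ DS N A M, if Disjoint E (R₁ ∪ R₂) then fS N E *
      (cf R₁ P * (zP N A R₁ M E P * zz N A R₂ M E) +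
        cf R₂ P * (zz N A R₁ M E * zP N A R₂ M E P) +
        cg R₁ R₂ P * (zP N A R₁ M E P * zP N A R₂ M E P)) else 0 := by
    unfold Qp DE
    rw [sum_filter]
  rw [h2, ← hc]
  refine (abs_sum_le_sum_abs _ _).trans ((sum_le_sum h1).trans ?_)
  rw [← sum_filter, ← mul_sum, ← mul_sum, sum_add_distrib]
  have e1 := br_insert hN A R₁ M hP
  have e2 := br_insert hN A R₂ M hP
  refine mul_le_mul_of_nonneg_left ?_ hc0
  linarith

open scoped Classical in
/-- the contribution of a prime in `R₁` -/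
theorem Qp_in1 (hCZ : T_CZ) {N : α → ℝ} (hN : ∀ P, 2 ≤ N P) {A R₁ R₂ : Finset α} {M D : ℝ}
    (hM : 1 ≤ M) (hG : 0 < GS N A M) (hR₁ : R₁ ⊆ A) (hR₂ : R₂ ⊆ A) (h₁ : R₁.Nonempty)
    (h₂ : R₂.Nonempty) (hd : Disjoint R₁ R₂) (hD₁ : ∑ E ∈ DS N A M, br N R₁ M E ≤ D)
    (hD₂ : ∑ E ∈ DS N A M, br N R₂ M E ≤ D) {P : α} (hP : P ∈ R₁) :
    |Qp N A R₁ R₂ M P| ≤ 2 ^ (R₁.card + R₂.card) / GS N A M ^ 2 * (3 * D) := by
  have hP3 : P ∉ R₂ := disjoint_left.1 hd hP
  have hc1 : cf R₁ P = 1 := if_pos hP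
  have hc2 : cf R₂ P = -1 := if_neg hP3
  have hc3 : cg R₁ R₂ P = 0 := if_pos (mem_union_left _ hP)
  obtain ⟨c, hc⟩ : ∃ c : ℝ, c = 2 ^ (R₁.card + R₂.card) / GS N A M ^ 2 := ⟨_, rfl⟩
  have hc0 : 0 ≤ c := by rw [hc]; positivity
  have h1 : ∀ E ∈ DE N A R₁ R₂ M, |fS N E *
      (cf R₁ P * (zP N A R₁ M E P * zz N A R₂ M E) +
        cf R₂ P * (zz N A R₁ M E * zP N A R₂ M E P) +
        cg R₁ R₂ P * (zP N A R₁ M E P * zP N A R₂ M E P))| ≤
      c * (2 * br N R₂ M E + br N R₁ M E) := by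
    intro E hE
    unfold DE at hE
    rw [mem_filter, disjoint_union_right] at hE
    have hEA := (mem_DS.1 hE.1).1
    have hPE : P ∉ E := fun h => disjoint_left.1 hE.2.1 h hP
    have hi2 : Disjoint (insert P E) R₂ := disjoint_insert_left.2 ⟨hP3, hE.2.2⟩
    have hiA : insert P E ⊆ A := insert_subset (hR₁ hP) hEA
    have a1 := zz_le hCZ hN hM hG hR₁ h₁ hEA hE.2.1
    have a2 := zz_le hCZ hN hM hG hR₂ h₂ hEA hE.2.2
    have b1 := zP_le hCZ hN hM hG hR₁ hEA hE.2.1 hP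
    have b2 := zz_le' hCZ hN hM hG hR₂ h₂ hiA hi2
    rw [← zP_insert] at b2
    have hf := fS_pos hN E
    have hfi : (fS N (insert P E))⁻¹ ≤ (fS N E)⁻¹ := by
      rw [fS_insert hPE]
      exact inv_anti₀ hf (le_mul_of_one_le_left hf.le (by linarith [hN P]))
    have hb1 := br_nonneg hN R₁ M E
    have hb2 := br_nonneg hN R₂ M E
    have b3 := b2.trans (mul_le_mul_of_nonneg_left hfi (by positivity))
    rw [hc1, hc2, hc3, zero_mul, add_zero, one_mul, abs_mul, abs_of_pos hf]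
    calc fS N E * |zP N A R₁ M E P * zz N A R₂ M E + -1 * (zz N A R₁ M E * zP N A R₂ M E P)| ≤
        fS N E * (|zP N A R₁ M E P| * |zz N A R₂ M E| + |zz N A R₁ M E| * |zP N A R₂ M E P|) := by
          refine mul_le_mul_of_nonneg_left ?_ hf.le
          refine (abs_add_le _ _).trans ?_
          rw [abs_mul, abs_mul (-1 : ℝ), abs_neg, abs_one, one_mul, abs_mul]
      _ ≤ fS N E * ((2 * (2 ^ R₁.card / GS N A M * (fS N E)⁻¹)) *
            (2 ^ R₂.card / GS N A M * br N R₂ M E) +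
          (2 ^ R₁.card / GS N A M * br N R₁ M E) * (2 ^ R₂.card / GS N A M * (fS N E)⁻¹)) := by
          refine mul_le_mul_of_nonneg_left (add_le_add ?_ ?_) hf.le
          · exact mul_le_mul b1 a2 (abs_nonneg _) (by positivity)
          · exact mul_le_mul a1 b3 (abs_nonneg _) (by positivity)
      _ = _ := by
          rw [hc, pow_add]
          field_simp
          try ring
  rw [← hc]
  unfold Qp
  refine (abs_sum_le_sum_abs _ _).trans ((sum_le_sum h1).trans ?_)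
  rw [← mul_sum]
  refine mul_le_mul_of_nonneg_left ?_ hc0
  calc ∑ E ∈ DE N A R₁ R₂ M, (2 * br N R₂ M E + br N R₁ M E) ≤
      ∑ E ∈ DS N A M, (2 * br N R₂ M E + br N R₁ M E) := by
        refine sum_le_sum_of_subset_of_nonneg (filter_subset _ _) fun E _ _ => ?_
        have := br_nonneg hN R₁ M E
        have := br_nonneg hN R₂ M E
        positivity
    _ = 2 * ∑ E ∈ DS N A M, br N R₂ M E + ∑ E ∈ DS N A M, br N R₁ M E := by
        rw [sum_add_distrib, mul_sum]
    _ ≤ 3 * D := by linarith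

open scoped Classical in
/-- the contribution is symmetric -/
theorem Qp_comm (N : α → ℝ) (A R₁ R₂ : Finset α) (M : ℝ) (P : α) :
    Qp N A R₁ R₂ M P = Qp N A R₂ R₁ M P := by
  unfold Qp DE cg
  rw [union_comm R₁ R₂]
  refine sum_congr rfl fun E _ => ?_
  ring

open scoped Classical in
theorem Qp_le (hCZ : T_CZ) {N : α → ℝ} (hN : ∀ P, 2 ≤ N P) {A R₁ R₂ : Finset α} {M D : ℝ}
    (hM : 1 ≤ M) (hG : 0 < GS N A M) (hR₁ : R₁ ⊆ A) (hR₂ : R₂ ⊆ A) (h₁ : R₁.Nonempty)
    (h₂ : R₂.Nonempty) (hd : Disjoint R₁ R₂) (hD₁ : ∑ E ∈ DS N A M, br N R₁ M E ≤ D)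
    (hD₂ : ∑ E ∈ DS N A M, br N R₂ M E ≤ D) {P : α} (hP : P ∈ A) :
    |Qp N A R₁ R₂ M P| ≤ 2 ^ (R₁.card + R₂.card) / GS N A M ^ 2 * (2 *
      (∑ S ∈ DS N A M, br N R₁ M S * (if P ∈ S then 1 else 0) +
        ∑ S ∈ DS N A M, br N R₂ M S * if P ∈ S then 1 else 0) +
      3 * D * ((if P ∈ R₁ then 1 else 0) + if P ∈ R₂ then 1 else 0)) := by
  have hs : ∀ R : Finset α, 0 ≤ ∑ S ∈ DS N A M, br N R M S * (if P ∈ S then (1 : ℝ) else 0) := by
    intro R
    refine sum_nonneg fun S _ => mul_nonneg (br_nonneg hN R M S) ?_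
    split_ifs <;> norm_num
  have h3 := hs R₁
  have h4 := hs R₂
  have hc0 : 0 ≤ (2 : ℝ) ^ (R₁.card + R₂.card) / GS N A M ^ 2 := by positivity
  have hD0 : 0 ≤ D := (sum_nonneg fun E _ => br_nonneg hN R₁ M E).trans hD₁
  by_cases p1 : P ∈ R₁
  · refine (Qp_in1 hCZ hN hM hG hR₁ hR₂ h₁ h₂ hd hD₁ hD₂ p1).trans
      (mul_le_mul_of_nonneg_left ?_ hc0)
    rw [if_pos p1, if_neg (disjoint_left.1 hd p1)]
    linarith
  · by_cases p2 : P ∈ R₂
    · rw [Qp_comm, add_comm R₁.card]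
      refine (Qp_in1 hCZ hN hM hG hR₂ hR₁ h₂ h₁ hd.symm hD₂ hD₁ p2).trans
        (mul_le_mul_of_nonneg_left ?_ ?_)
      · rw [if_pos p2, if_neg p1]
        linarith
      · rw [add_comm]
        exact hc0
    · refine (Qp_out hCZ hN hM hG hR₁ hR₂ h₁ h₂ hP ?_).trans
        (mul_le_mul_of_nonneg_left ?_ hc0)
      · rw [mem_union]
        exact fun h => h.elim p1 p2
      · rw [if_neg p1, if_neg p2]
        linarith

open scoped Classical in
theorem pf_CT (hCX : T_CX) (hCZ : T_CZ) : T_CT := by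
  intro α N A R₁ R₂ M D hN hM hR₁ hR₂ h₁ h₂ hd hD₁ hD₂
  have hG : 0 < GS N A M := by linarith [(hCX α N A M hN hM).2.1]
  rw [← br_sum hN A R₁ M (by linarith)] at hD₁
  rw [← br_sum hN A R₂ M (by linarith)] at hD₂
  have hD0 : 0 ≤ D := (sum_nonneg fun E _ => br_nonneg hN R₁ M E).trans hD₁
  obtain ⟨c, hc⟩ : ∃ c : ℝ, c = 2 ^ (R₁.card + R₂.card) / GS N A M ^ 2 := ⟨_, rfl⟩
  have hc0 : 0 ≤ c := by rw [hc]; positivity
  constructor
  · rw [form1 hN]
    have h1 : ∀ E ∈ DE N A R₁ R₂ M, |fS N E * zz N A R₁ M E * zz N A R₂ M E| ≤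
        c * br N R₁ M E := by
      intro E hE
      unfold DE at hE
      rw [mem_filter, disjoint_union_right] at hE
      have hEA := (mem_DS.1 hE.1).1
      have a1 := zz_le hCZ hN hM hG hR₁ h₁ hEA hE.2.1
      have a2 := zz_le' hCZ hN hM hG hR₂ h₂ hEA hE.2.2
      have hf := fS_pos hN E
      have hb1 := br_nonneg hN R₁ M E
      rw [abs_mul, abs_mul, abs_of_pos hf]
      calc fS N E * |zz N A R₁ M E| * |zz N A R₂ M E| ≤
          fS N E * (2 ^ R₁.card / GS N A M * br N R₁ M E) *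
            (2 ^ R₂.card / GS N A M * (fS N E)⁻¹) :=
            mul_le_mul (mul_le_mul_of_nonneg_left a1 hf.le) a2 (abs_nonneg _) (by positivity)
        _ = _ := by
            rw [hc, pow_add]
            field_simp
    calc _ ≤ ∑ E ∈ DE N A R₁ R₂ M, c * br N R₁ M E :=
          (abs_sum_le_sum_abs _ _).trans (sum_le_sum h1)
      _ ≤ ∑ E ∈ DS N A M, c * br N R₁ M E := by
          refine sum_le_sum_of_subset_of_nonneg (filter_subset _ _) fun E _ _ => ?_
          exact mul_nonneg hc0 (br_nonneg hN R₁ M E)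
      _ = c * ∑ E ∈ DS N A M, br N R₁ M E := by rw [mul_sum]
      _ ≤ c * D := mul_le_mul_of_nonneg_left hD₁ hc0
      _ = _ := by rw [hc]; ring
  · rw [form2 hN hd]
    have hlog : ∀ P, 0 ≤ Real.log (N P) := fun P => Real.log_nonneg (by linarith [hN P])
    have hsw : ∀ R : Finset α, ∑ P ∈ A, Real.log (N P) *
        ∑ S ∈ DS N A M, br N R M S * (if P ∈ S then (1 : ℝ) else 0) ≤
        Real.log M * ∑ S ∈ DS N A M, br N R M S := by
      intro R
      rw [sum_congr rfl fun P _ => mul_sum _ _ _, sum_comm, mul_sum]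
      refine sum_le_sum fun S hS => ?_
      have h1 : ∑ P ∈ A, Real.log (N P) * (br N R M S * if P ∈ S then (1 : ℝ) else 0) =
          Real.log (nS N S) * br N R M S := by
        rw [log_nS_ind hN (mem_DS.1 hS).1, sum_mul]
        exact sum_congr rfl fun P _ => by ring
      rw [h1]
      exact mul_le_mul_of_nonneg_right (Real.log_le_log (nS_pos hN S) (mem_DS.1 hS).2)
        (br_nonneg hN R M S)
    have hlM : 0 ≤ Real.log M := Real.log_nonneg hM
    have hl1 : 0 ≤ Real.log (nS N R₁) := Real.log_nonneg (nS_ge hN R₁)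
    have hl2 : 0 ≤ Real.log (nS N R₂) := Real.log_nonneg (nS_ge hN R₂)
    calc |∑ P ∈ A, Real.log (N P) * Qp N A R₁ R₂ M P| ≤
        ∑ P ∈ A, Real.log (N P) * |Qp N A R₁ R₂ M P| := by
          refine (abs_sum_le_sum_abs _ _).trans (sum_le_sum fun P _ => ?_)
          rw [abs_mul, abs_of_nonneg (hlog P)]
      _ ≤ ∑ P ∈ A, Real.log (N P) * (c * (2 *
          (∑ S ∈ DS N A M, br N R₁ M S * (if P ∈ S then 1 else 0) +
            ∑ S ∈ DS N A M, br N R₂ M S * if P ∈ S then 1 else 0) +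
          3 * D * ((if P ∈ R₁ then 1 else 0) + if P ∈ R₂ then 1 else 0))) := by
          refine sum_le_sum fun P hP => mul_le_mul_of_nonneg_left ?_ (hlog P)
          rw [hc]
          exact Qp_le hCZ hN hM hG hR₁ hR₂ h₁ h₂ hd hD₁ hD₂ hP
      _ = c * (2 * ((∑ P ∈ A, Real.log (N P) *
            ∑ S ∈ DS N A M, br N R₁ M S * (if P ∈ S then (1 : ℝ) else 0)) +
          ∑ P ∈ A, Real.log (N P) *
            ∑ S ∈ DS N A M, br N R₂ M S * (if P ∈ S then (1 : ℝ) else 0)) +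
          3 * D * (Real.log (nS N R₁) + Real.log (nS N R₂))) := by
          rw [log_nS_ind hN hR₁, log_nS_ind hN hR₂, ← sum_add_distrib, ← sum_add_distrib, mul_sum,
            mul_sum, ← sum_add_distrib, mul_sum]
          exact sum_congr rfl fun P _ => by ring
      _ ≤ c * (2 * (Real.log M * D + Real.log M * D) +
          3 * D * (Real.log (nS N R₁) + Real.log (nS N R₂))) := by
          refine mul_le_mul_of_nonneg_left (add_le_add (mul_le_mul_of_nonneg_left
            (add_le_add ?_ ?_) (by norm_num)) le_rfl) hc0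
          · exact (hsw R₁).trans (mul_le_mul_of_nonneg_left hD₁ hlM)
          · exact (hsw R₂).trans (mul_le_mul_of_nonneg_left hD₂ hlM)
      _ ≤ c * (8 * (Real.log M + Real.log (nS N R₁) + Real.log (nS N R₂)) * D) := by
          refine mul_le_mul_of_nonneg_left ?_ hc0
          have := mul_nonneg hlM hD0
          have := mul_nonneg hl1 hD0
          have := mul_nonneg hl2 hD0
          nlinarith
      _ = _ := by rw [hc]; ring

end Pool.Agent.H27.CV
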