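import Pool.Agent.H49.CV.CX

/-!
# Quadratic forms in Selberg's weights: the decomposition of the kernel
-/

set_option autoImplicit false

namespace Pool.Agent.H27.CV

open Finset Pool.Agent.H37.CV Pool.Agent.H49.CV

variable {α : Type} {N : α → ℝ}

theorem fS_pos (hN : ∀ P, 2 ≤ N P) (S : Finset α) : 0 < fS N S :=
  lt_of_lt_of_le zero_lt_one (fS_ge hN S)

theorem nS_pos (hN : ∀ P, 2 ≤ N P) (S : Finset α) : 0 < nS N S :=
  lt_of_lt_of_le zero_lt_one (nS_ge hN S)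

theorem fS_le_nS (hN : ∀ P, 2 ≤ N P) (S : Finset α) : fS N S ≤ nS N S :=
  prod_le_prod (fun P _ => by linarith [hN P]) fun P _ => by linarith

/-- `nS S` is the sum of `fS` over the subsets -/
theorem nS_eq_sum (N : α → ℝ) (S : Finset α) : nS N S = ∑ E ∈ S.powerset, fS N E := by
  classical
  unfold nS fS
  rw [← prod_one_add]
  exact prod_congr rfl fun P _ => by ring

open scoped Classical in
theorem mem_DS {A S : Finset α} {M : ℝ} : S ∈ DS N A M ↔ S ⊆ A ∧ nS N S ≤ M := by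
  unfold DS
  rw [mem_filter, mem_powerset]

theorem DS_down (hN : ∀ P, 2 ≤ N P) {A S E : Finset α} {M : ℝ} (hS : S ∈ DS N A M) (hE : E ⊆ S) :
    E ∈ DS N A M := by
  rw [mem_DS] at hS ⊢
  exact ⟨hE.trans hS.1, (nS_mono hN hE).trans hS.2⟩

open scoped Classical in
/-- the sets which are disjoint from `R₁` and `R₂` -/
noncomputable def DE (N : α → ℝ) (A R₁ R₂ : Finset α) (M : ℝ) : Finset (Finset α) :=
  (DS N A M).filter fun E => Disjoint E (R₁ ∪ R₂)

open scoped Classical in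
/-- the decomposition of the kernel -/
theorem bil (hN : ∀ P, 2 ≤ N P) (A R₁ R₂ : Finset α) (M : ℝ) (u v : Finset α → ℝ) :
    ∑ S ∈ DS N A M, ∑ T ∈ DS N A M,
      u S * v T * (gg N R₁ R₂ S T / (nS N S * nS N T)) =
    ∑ E ∈ DE N A R₁ R₂ M, fS N E *
      (∑ S ∈ (DS N A M).filter (fun S => E ⊆ S), u S * (nS N (S ∩ R₁) / nS N S)) *
      ∑ T ∈ (DS N A M).filter (fun T => E ⊆ T), v T * (nS N (T ∩ R₂) / nS N T) := by
  have h1 : ∀ S ∈ DS N A M, ∀ T, u S * v T * (gg N R₁ R₂ S T / (nS N S * nS N T)) =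
      ∑ E ∈ DE N A R₁ R₂ M, if E ⊆ S ∧ E ⊆ T then fS N E * (u S * (nS N (S ∩ R₁) / nS N S)) *
        (v T * (nS N (T ∩ R₂) / nS N T)) else 0 := by
    intro S hS T
    rw [← sum_filter]
    have h2 : (DE N A R₁ R₂ M).filter (fun E => E ⊆ S ∧ E ⊆ T) =
        ((S ∩ T) \ (R₁ ∪ R₂)).powerset := by
      ext E
      unfold DE
      rw [mem_filter, mem_filter, mem_powerset, subset_sdiff, subset_inter_iff]
      constructor
      · rintro ⟨⟨_, h3⟩, h4, h5⟩
        exact ⟨⟨h4, h5⟩, h3⟩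
      · rintro ⟨⟨h4, h5⟩, h3⟩
        exact ⟨⟨DS_down hN hS h4, h3⟩, h4, h5⟩
    rw [h2]
    unfold gg
    rw [nS_eq_sum N ((S ∩ T) \ (R₁ ∪ R₂)), mul_sum, sum_div, mul_sum]
    refine sum_congr rfl fun E _ => ?_
    have h3 := (nS_pos hN S).ne'
    have h4 := (nS_pos hN T).ne'
    field_simp
  calc ∑ S ∈ DS N A M, ∑ T ∈ DS N A M, u S * v T * (gg N R₁ R₂ S T / (nS N S * nS N T)) =
      ∑ S ∈ DS N A M, ∑ T ∈ DS N A M, ∑ E ∈ DE N A R₁ R₂ M, if E ⊆ S ∧ E ⊆ T then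
        fS N E * (u S * (nS N (S ∩ R₁) / nS N S)) * (v T * (nS N (T ∩ R₂) / nS N T)) else 0 :=
        sum_congr rfl fun S hS => sum_congr rfl fun T _ => h1 S hS T
    _ = ∑ E ∈ DE N A R₁ R₂ M, ∑ S ∈ DS N A M, ∑ T ∈ DS N A M, if E ⊆ S ∧ E ⊆ T then
        fS N E * (u S * (nS N (S ∩ R₁) / nS N S)) * (v T * (nS N (T ∩ R₂) / nS N T)) else 0 := by
        rw [sum_congr rfl fun S _ => sum_comm, sum_comm]
    _ = _ := by
        refine sum_congr rfl fun E _ => ?_
        rw [mul_assoc, sum_mul_sum, mul_sum, sum_filter]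
        refine sum_congr rfl fun S _ => ?_
        split_ifs with h
        · rw [mul_sum, sum_filter]
          refine sum_congr rfl fun T _ => ?_
          by_cases h3 : E ⊆ T
          · rw [if_pos ⟨h, h3⟩, if_pos h3]
            ring
          · rw [if_neg fun h4 => h3 h4.2, if_neg h3]
        · exact sum_eq_zero fun T _ => if_neg fun h4 => h h4.1

/-- logarithm of the norm -/
theorem log_nS (hN : ∀ P, 2 ≤ N P) (S : Finset α) :
    Real.log (nS N S) = ∑ P ∈ S, Real.log (N P) := by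
  unfold nS
  exact Real.log_prod fun P _ => by linarith [hN P]

open scoped Classical in
theorem log_nS_ind (hN : ∀ P, 2 ≤ N P) {A S : Finset α} (h : S ⊆ A) :
    Real.log (nS N S) = ∑ P ∈ A, Real.log (N P) * if P ∈ S then 1 else 0 := by
  rw [log_nS hN]
  simp only [mul_ite, mul_one, mul_zero]
  rw [sum_ite_mem, inter_eq_right.2 h]

open scoped Classical in
/-- the coefficient of `log (N P)` in the logarithm of the kernel -/
noncomputable def cP (R₁ R₂ S T : Finset α) (P : α) : ℝ :=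
  2 * ((if P ∈ S ∩ R₁ then 1 else 0) + (if P ∈ T ∩ R₂ then 1 else 0) +
    if P ∈ (S ∩ T) \ (R₁ ∪ R₂) then 1 else 0) - (if P ∈ S then 1 else 0) - if P ∈ T then 1 else 0

open scoped Classical in
theorem gg_pos (hN : ∀ P, 2 ≤ N P) (R₁ R₂ S T : Finset α) : 0 < gg N R₁ R₂ S T := by
  unfold gg
  have := nS_pos hN (S ∩ R₁)
  have := nS_pos hN (T ∩ R₂)
  have := nS_pos hN ((S ∩ T) \ (R₁ ∪ R₂))
  positivity

open scoped Classical in
theorem log_kernel (hN : ∀ P, 2 ≤ N P) {A R₁ R₂ S T : Finset α} (hS : S ⊆ A) (hT : T ⊆ A) :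
    Real.log (gg N R₁ R₂ S T ^ 2 / (nS N S * nS N T)) =
      ∑ P ∈ A, Real.log (N P) * cP R₁ R₂ S T P := by
  have h1 := nS_pos hN S
  have h2 := nS_pos hN T
  have h3 := nS_pos hN (S ∩ R₁)
  have h4 := nS_pos hN (T ∩ R₂)
  have h5 := nS_pos hN ((S ∩ T) \ (R₁ ∪ R₂))
  rw [Real.log_div (pow_ne_zero _ (gg_pos hN R₁ R₂ S T).ne') (mul_ne_zero h1.ne' h2.ne'),
    Real.log_pow, Real.log_mul h1.ne' h2.ne']
  unfold gg
  rw [Real.log_mul (mul_ne_zero h3.ne' h4.ne') h5.ne', Real.log_mul h3.ne' h4.ne',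
    log_nS_ind hN hS, log_nS_ind hN hT, log_nS_ind hN (inter_subset_left.trans hS),
    log_nS_ind hN (inter_subset_left.trans hT),
    log_nS_ind hN ((sdiff_subset.trans inter_subset_left).trans hS)]
  rw [← sum_add_distrib, ← sum_add_distrib, ← sum_add_distrib, mul_sum, ← sum_sub_distrib]
  refine sum_congr rfl fun P _ => ?_
  unfold cP
  push_cast
  ring

end Pool.Agent.H27.CV
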