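import Pool.Agent.H27.CV.Comb

/-!
# Quadratic forms in Selberg's weights with a logarithm
-/

set_option autoImplicit false

namespace Pool.Agent.H27.CV

open Finset Pool.Agent.H37.CV Pool.Agent.H49.CV

variable {α : Type}

open scoped Classical in
/-- the sums of (CZ) -/
noncomputable def zz (N : α → ℝ) (A R : Finset α) (M : ℝ) (E : Finset α) : ℝ :=
  ∑ S ∈ (DS N A M).filter (fun S => E ⊆ S), xS N A M S * (nS N (S ∩ R) / nS N S)

open scoped Classical in
/-- the sums of (CZ) over the sets that contain `P` -/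
noncomputable def zP (N : α → ℝ) (A R : Finset α) (M : ℝ) (E : Finset α) (P : α) : ℝ :=
  ∑ S ∈ (DS N A M).filter (fun S => E ⊆ S ∧ P ∈ S), xS N A M S * (nS N (S ∩ R) / nS N S)

open scoped Classical in
/-- the coefficients -/
noncomputable def cf (R : Finset α) (P : α) : ℝ := if P ∈ R then 1 else -1

open scoped Classical in
/-- the coefficients -/
noncomputable def cg (R₁ R₂ : Finset α) (P : α) : ℝ := if P ∈ R₁ ∪ R₂ then 0 else 2

open scoped Classical in
/-- the contribution of `P` -/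
noncomputable def Qp (N : α → ℝ) (A R₁ R₂ : Finset α) (M : ℝ) (P : α) : ℝ :=
  ∑ E ∈ DE N A R₁ R₂ M, fS N E * (cf R₁ P * (zP N A R₁ M E P * zz N A R₂ M E) +
    cf R₂ P * (zz N A R₁ M E * zP N A R₂ M E P) +
    cg R₁ R₂ P * (zP N A R₁ M E P * zP N A R₂ M E P))

theorem zP_mem {N : α → ℝ} {A R : Finset α} {M : ℝ} {E : Finset α} {P : α} (h : P ∈ E) :
    zP N A R M E P = zz N A R M E := by
  classical
  unfold zP zz
  refine sum_congr (filter_congr fun S _ => ?_) fun _ _ => rfl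
  exact ⟨fun h1 => h1.1, fun h1 => ⟨h1, h1 h⟩⟩

open scoped Classical in
theorem zP_insert {N : α → ℝ} {A R : Finset α} {M : ℝ} {E : Finset α} {P : α} :
    zP N A R M E P = zz N A R M (insert P E) := by
  unfold zP zz
  refine sum_congr (filter_congr fun S _ => ?_) fun _ _ => rfl
  rw [insert_subset_iff, and_comm]

open scoped Classical in
theorem zP_ind (N : α → ℝ) (A R : Finset α) (M : ℝ) (E : Finset α) (P : α) :
    ∑ S ∈ (DS N A M).filter (fun S => E ⊆ S), (xS N A M S * if P ∈ S then 1 else 0) *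
      (nS N (S ∩ R) / nS N S) = zP N A R M E P := by
  unfold zP
  rw [sum_filter, sum_filter]
  refine sum_congr rfl fun S _ => ?_
  by_cases h1 : E ⊆ S <;> by_cases h2 : P ∈ S <;> simp [h1, h2]

open scoped Classical in
theorem form1 {N : α → ℝ} (hN : ∀ P, 2 ≤ N P) (A R₁ R₂ : Finset α) (M : ℝ) :
    ∑ S ∈ DS N A M, ∑ T ∈ DS N A M,
      xS N A M S * xS N A M T * (gg N R₁ R₂ S T / (nS N S * nS N T)) =
    ∑ E ∈ DE N A R₁ R₂ M, fS N E * zz N A R₁ M E * zz N A R₂ M E :=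
  bil hN A R₁ R₂ M (xS N A M) (xS N A M)

open scoped Classical in
theorem cP_eq {R₁ R₂ : Finset α} (hd : Disjoint R₁ R₂) (S T : Finset α) (P : α) :
    cP R₁ R₂ S T P = cf R₁ P * (if P ∈ S then 1 else 0) + cf R₂ P * (if P ∈ T then 1 else 0) +
      cg R₁ R₂ P * ((if P ∈ S then 1 else 0) * if P ∈ T then 1 else 0) := by
  unfold cP cf cg
  simp only [mem_inter, mem_sdiff, mem_union]
  by_cases h1 : P ∈ R₁
  · have h2 : P ∉ R₂ := disjoint_left.1 hd h1
    by_cases h3 : P ∈ S <;> by_cases h4 : P ∈ T <;> simp [h1, h2, h3, h4]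
    all_goals norm_num
  · by_cases h2 : P ∈ R₂
    · by_cases h3 : P ∈ S <;> by_cases h4 : P ∈ T <;> simp [h1, h2, h3, h4]
      all_goals norm_num
    · by_cases h3 : P ∈ S <;> by_cases h4 : P ∈ T <;> simp [h1, h2, h3, h4]
      all_goals norm_num

open scoped Classical in
theorem form2 {N : α → ℝ} (hN : ∀ P, 2 ≤ N P) {A R₁ R₂ : Finset α} (hd : Disjoint R₁ R₂) (M : ℝ) :
    ∑ S ∈ DS N A M, ∑ T ∈ DS N A M,
      xS N A M S * xS N A M T * (gg N R₁ R₂ S T / (nS N S * nS N T)) *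
        Real.log (gg N R₁ R₂ S T ^ 2 / (nS N S * nS N T)) =
    ∑ P ∈ A, Real.log (N P) * Qp N A R₁ R₂ M P := by
  have h1 : ∀ S ∈ DS N A M, ∀ T ∈ DS N A M,
      xS N A M S * xS N A M T * (gg N R₁ R₂ S T / (nS N S * nS N T)) *
        Real.log (gg N R₁ R₂ S T ^ 2 / (nS N S * nS N T)) =
      ∑ P ∈ A, Real.log (N P) *
        (xS N A M S * xS N A M T * (gg N R₁ R₂ S T / (nS N S * nS N T)) * cP R₁ R₂ S T P) := by
    intro S hS T hT
    rw [log_kernel hN (mem_DS.1 hS).1 (mem_DS.1 hT).1, mul_sum]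
    exact sum_congr rfl fun P _ => by ring
  rw [sum_congr rfl fun S hS => sum_congr rfl fun T hT => h1 S hS T hT,
    sum_congr rfl fun S _ => sum_comm, sum_comm]
  refine sum_congr rfl fun P _ => ?_
  rw [sum_congr rfl fun S _ => (mul_sum _ _ _).symm, ← mul_sum]
  congr 1
  have h2 := bil hN A R₁ R₂ M (fun S => xS N A M S * if P ∈ S then 1 else 0) (xS N A M)
  have h3 := bil hN A R₁ R₂ M (xS N A M) (fun S => xS N A M S * if P ∈ S then 1 else 0)
  have h4 := bil hN A R₁ R₂ M (fun S => xS N A M S * if P ∈ S then 1 else 0)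
    (fun S => xS N A M S * if P ∈ S then 1 else 0)
  have h5 : ∑ S ∈ DS N A M, ∑ T ∈ DS N A M,
      xS N A M S * xS N A M T * (gg N R₁ R₂ S T / (nS N S * nS N T)) * cP R₁ R₂ S T P =
      cf R₁ P * (∑ S ∈ DS N A M, ∑ T ∈ DS N A M,
        (xS N A M S * if P ∈ S then 1 else 0) * xS N A M T *
          (gg N R₁ R₂ S T / (nS N S * nS N T))) +
      cf R₂ P * (∑ S ∈ DS N A M, ∑ T ∈ DS N A M,
        xS N A M S * (xS N A M T * if P ∈ T then 1 else 0) *
          (gg N R₁ R₂ S T / (nS N S * nS N T))) +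
      cg R₁ R₂ P * (∑ S ∈ DS N A M, ∑ T ∈ DS N A M,
        (xS N A M S * if P ∈ S then 1 else 0) * (xS N A M T * if P ∈ T then 1 else 0) *
          (gg N R₁ R₂ S T / (nS N S * nS N T))) := by
    rw [mul_sum, mul_sum, mul_sum, ← sum_add_distrib, ← sum_add_distrib]
    refine sum_congr rfl fun S _ => ?_
    rw [mul_sum, mul_sum, mul_sum, ← sum_add_distrib, ← sum_add_distrib]
    refine sum_congr rfl fun T _ => ?_
    rw [cP_eq hd]
    ring
  rw [h5, h2, h3, h4]
  unfold Qp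
  rw [mul_sum, mul_sum, mul_sum, ← sum_add_distrib, ← sum_add_distrib]
  refine sum_congr rfl fun E _ => ?_
  rw [zP_ind, zP_ind]
  unfold zz
  ring

open scoped Classical in
/-- the alternating sum of (CZ) -/
noncomputable def sg (N : α → ℝ) (R : Finset α) (M : ℝ) (E : Finset α) : ℝ :=
  ∑ n ∈ R.powerset.filter (fun n => nS N n * nS N E ≤ M), (-1) ^ n.card

open scoped Classical in
theorem zz_eq (hCZ : T_CZ) {N : α → ℝ} (hN : ∀ P, 2 ≤ N P) {A R E : Finset α} {M : ℝ}
    (hM : 1 ≤ M) (hR : R ⊆ A) (hE : E ⊆ A) (hd : Disjoint E R) :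
    zz N A R M E = (-1) ^ E.card / (fS N E * GS N A M) * sg N R M E :=
  (hCZ α N A R E M hN hM hR hE hd).1

open scoped Classical in
theorem zP_eq (hCZ : T_CZ) {N : α → ℝ} (hN : ∀ P, 2 ≤ N P) {A R E : Finset α} {M : ℝ}
    (hM : 1 ≤ M) (hR : R ⊆ A) (hE : E ⊆ A) (hd : Disjoint E R) {P : α} (hP : P ∈ R) :
    zP N A R M E P = (-1) ^ E.card / (fS N E * GS N A M) * (N P / (N P - 1)) *
        ∑ n ∈ R.powerset.filter (fun n => P ∈ n ∧ nS N n * nS N E ≤ M), (-1) ^ n.card :=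
  (hCZ α N A R E M hN hM hR hE hd).2 P hP

/-- insertion of `P` -/
theorem sum_insert_eq {N : α → ℝ} (hN : ∀ P, 2 ≤ N P) {A : Finset α} {M : ℝ} {P : α}
    [DecidableEq α] (f : Finset α → ℝ) :
    ∑ E ∈ (DS N A M).filter (fun E => P ∉ E ∧ insert P E ∈ DS N A M), f (insert P E) =
      ∑ S ∈ (DS N A M).filter (fun S => P ∈ S), f S := by
  refine sum_nbij' (fun E => insert P E) (fun S => S.erase P) (fun E hE => ?_) (fun S hS => ?_)
    (fun E hE => ?_) (fun S hS => ?_) fun E _ => rfl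
  · rw [mem_filter] at hE ⊢
    exact ⟨hE.2.2, mem_insert_self _ _⟩
  · rw [mem_filter] at hS ⊢
    refine ⟨DS_down hN hS.1 (erase_subset _ _), notMem_erase _ _, ?_⟩
    rw [insert_erase hS.2]
    exact hS.1
  · exact erase_insert (mem_filter.1 hE).2.1
  · exact insert_erase (mem_filter.1 hS).2

theorem fS_insert {N : α → ℝ} [DecidableEq α] {E : Finset α} {P : α} (h : P ∉ E) :
    fS N (insert P E) = (N P - 1) * fS N E := by
  unfold fS
  rw [prod_insert h]

end Pool.Agent.H27.CV
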